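import Mathlib
import Pool.Agent.Lib.MP_9ed947_gt.SharpEnd
import Pool.Agent.Lib.MP_9ed947_gt.SharpPlane

namespace Pool.Agent.Results.MP_9ed947_gt.SharpThreshold

open MeasureTheory Pool.Agent.Lib.MP_9ed947_gt.Sharp

/-- The displacement threshold for measurable paradoxes in the hyperbolic plane is exactly
`log 2`, it is not attained, and above it the whole plane is an example at every point. -/
theorem result (c : ℝ) : List.TFAE
    [Real.log 2 < c,
      ∃ (X : Set UpperHalfPlane) (P : UpperHalfPlane), 0 < volume X ∧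
        Paradox (fun S => NullMeasurableSet S volume) {g | dist P (g P) ≤ c} X,
      ∀ P : UpperHalfPlane, Paradox MeasurableSet {g | dist P (g P) < c} Set.univ] := by
  tfae_have 1 → 3 := fun h P => plane h P
  tfae_have 3 → 2 := by
    intro h
    obtain ⟨m, n, ρ, σ, A, B, h1, h2, h3, h4, h5, h6, h7⟩ := h UpperHalfPlane.I
    exact ⟨Set.univ, UpperHalfPlane.I,
      pos_iff_ne_zero.2 (volume_open_pos isOpen_univ Set.univ_nonempty), m, n, ρ, σ, A, B, h1, h2,
      fun i => (h3 i).nullMeasurableSet, fun j => (h4 j).nullMeasurableSet,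
      fun i => Set.mem_ofPred_eq ▸ le_of_lt (h5 i), fun j => Set.mem_ofPred_eq ▸ le_of_lt (h6 j),
      h7⟩
  tfae_have 2 → 1 := by
    rintro ⟨X, P, hX, m, n, ρ, σ, A, B, h1, h2, h3, h4, h5, h6, h7⟩
    by_contra hc
    exact hX.ne' (endpoint (P := P) ⟨m, n, ρ, σ, A, B, h1, h2, h3, h4,
      fun i => le_trans (h5 i) (not_lt.1 hc), fun j => le_trans (h6 j) (not_lt.1 hc), h7⟩)
  tfae_finish

end Pool.Agent.Results.MP_9ed947_gt.SharpThreshold
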